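import Pool.Agent.N269.PF.Tree

set_option autoImplicit false

/-!
# The arithmetic Kakeya conjecture (projection form) for labelled trees

Let `Ω` be a finite set of words of length `J` over any alphabet, the leaves of a tree. The nodes of
the tree (the initial parts of the words) carry arbitrary labels in `ℤ × ℤ`, and `M 0, M 1, ...` are
arbitrary positive integers. Let `A` be the set of the points

  `∑_{i < J} M 0 ⋯ M (i-1) lab (w_0 w_1 ... w_i)`,  `w ∈ Ω`.

(Every finite `A` is of this form: words of digits of the two coordinates.) For a node `u` of level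
`i` and a divisor `g` of `M i` let `K u g` be an upper bound for the number of the children of `u`
whose labels are in one residue class modulo `g`. Then for every `k ≥ 1`

  `|π_{-1}(A)| ≤ |Ω| ≤ G max_{0 ≤ t < k} |π_t(A)|`,

where `G` is the geometric mean over `w ∈ Ω` of the products over the nodes `u` of the path to `w` of

  `cost k M K i u = K u 1 / k + ∑_{g ∣ M i} (g / M i) K u g`.

Here `K u 1` bounds the number of children. For example, let `K u g ≤ C (M i) / g`: from no node the
labels of the children are concentrated on few residues more than those of a graph of a function.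
With `M i = b ^ s` for all `i` and `k = b ^ s` we have `G ≤ (C (1 + d(b ^ s))) ^ J`, where the number
`d` of divisors is `O(s ^ a)`, while `|Ω|` may be as large as `(C b ^ s) ^ J`. Hence, for a fixed
base `b`, the inequality of the conjecture with the exponent `1 + ε` holds for these sets `A` as soon
as `|Ω| ≥ b ^ (δ s J)` and `s ≥ s(ε, δ, b, C)`, with the same slopes `0, 1, ..., b ^ s - 1` for all
`J` and all labels. The set of the differences is arbitrary.

Example: `A = {(x, y) : x - y ∈ D}` where `D` is an arbitrary set of integers with `s J` digits and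
`y` is computed from `x - y` by a machine with `N` states which reads the digits of `x - y` in
blocks of `s`, the most significant one first, and which outputs arbitrary integers
`y_{J-1}, ..., y_0`, `y = ∑ b^(s i) y_i`. The words consist of the pairs (block, state), and
`K u g = N b ^ s / g`. The outputs may be large compared with the number of slopes (otherwise the
statement would be easy).

Proof. For the uniform distribution on `Ω` the entropy of `π_t` is estimated from below level by
level, starting from the least significant level (submodularity: the residue modulo `M i` is a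
function of the next level of the tree and of the rest of the sum); the average over `t` of the
entropy lost on one level is at most the logarithm of the cost, by `log x ≤ x - 1`.
-/

open Finset

namespace Pool.Agent.Results.MP_169869_co.LabelledTrees

/-- the projection `π_r(A) = {x + r y : (x, y) ∈ A}` -/
def proj (r : ℚ) (A : Finset (ℤ × ℤ)) : Finset ℚ :=
  A.image (fun p : ℤ × ℤ => (p.1 : ℚ) + r * (p.2 : ℚ))

/-- The children of the node `u`: the words with one more letter than `u` which extend `u` and are
initial parts of words of `Ω`. -/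
def children {ι : Type} [DecidableEq ι] (Ω : Finset (List ι)) (u : List ι) : Finset (List ι) :=
  (Ω.filter fun w => w.take u.length = u).image fun w => w.take (u.length + 1)

/-- The point of the word `w`: `∑ M 0 ⋯ M (i-1) lab (w_0 w_1 ... w_i)`. -/
def point {ι : Type} (M : ℕ → ℕ) (lab : List ι → ℤ × ℤ) (w : List ι) : ℤ × ℤ :=
  ∑ i ∈ range w.length, (∏ j ∈ range i, (M j : ℤ)) • lab (w.take (i + 1))

/-- The cost of the node `u` of level `i`. -/
noncomputable def cost {ι : Type} (k : ℕ) (M : ℕ → ℕ) (K : List ι → ℕ → ℝ) (i : ℕ)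
    (u : List ι) : ℝ :=
  K u 1 / k + ∑ g ∈ (M i).divisors, (g : ℝ) / M i * K u g

/-- **The inequality of the arithmetic Kakeya conjecture for labelled trees.** -/
theorem result {ι : Type} [DecidableEq ι] (J k : ℕ) (hk : 1 ≤ k) (M : ℕ → ℕ) (hM : ∀ i, 1 ≤ M i)
    (Ω : Finset (List ι)) (hΩ : Ω.Nonempty) (hJ : ∀ w ∈ Ω, w.length = J)
    (lab : List ι → ℤ × ℤ) (K : List ι → ℕ → ℝ)
    (hK : ∀ w ∈ Ω, ∀ i < J, ∀ g ∈ (M i).divisors, ∀ z : ℤ × ℤ,
      (((children Ω (w.take i)).filter fun u =>
        (g : ℤ) ∣ (lab u).1 - z.1 ∧ (g : ℤ) ∣ (lab u).2 - z.2).card : ℝ) ≤ K (w.take i) g) :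
    (proj (-1) (Ω.image (point M lab))).card ≤ Ω.card ∧
    ∃ t : ℕ, t < k ∧ (Ω.card : ℝ) ≤
      Real.exp ((∑ w ∈ Ω, ∑ i ∈ range J, Real.log (cost k M K i (w.take i))) / Ω.card) *
        (proj t (Ω.image (point M lab))).card := by
  refine ⟨card_image_le.trans card_image_le, ?_⟩
  have hk0 : (0:ℝ) < k := by exact_mod_cast hk
  -- the tree
  have hlen : ∀ w ∈ Ω, ∀ i < J, (w.take i).length = i := by
    intro w hw i hi
    rw [List.length_take, hJ w hw, min_eq_left hi.le]
  have hch : ∀ w ∈ Ω, ∀ i < J, children Ω (w.take i) =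
      (Ω.filter fun w' => w'.take i = w.take i).image fun w' => w'.take (i + 1) := by
    intro w hw i hi
    unfold children
    rw [hlen w hw i hi]
  have hKpos : ∀ w ∈ Ω, ∀ i < J, ∀ g ∈ (M i).divisors, 1 ≤ K (w.take i) g := by
    intro w hw i hi g hg
    refine le_trans ?_ (hK w hw i hi g hg (lab (w.take (i + 1))))
    have : 0 < ((children Ω (w.take i)).filter fun u =>
        (g : ℤ) ∣ (lab u).1 - (lab (w.take (i + 1))).1 ∧
        (g : ℤ) ∣ (lab u).2 - (lab (w.take (i + 1))).2).card := by
      rw [card_pos]
      refine ⟨w.take (i + 1), ?_⟩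
      rw [mem_filter, hch w hw i hi, mem_image]
      refine ⟨⟨w, ?_, rfl⟩, by simp, by simp⟩
      rw [mem_filter]
      exact ⟨hw, rfl⟩
    exact_mod_cast this
  have hM0 : ∀ i, M i ≠ 0 := fun i => by have := hM i; omega
  have hcost : ∀ w ∈ Ω, ∀ i < J, 0 < cost k M K i (w.take i) := by
    intro w hw i hi
    have h1 : 1 ≤ K (w.take i) 1 := hKpos w hw i hi 1 (Nat.mem_divisors.2 ⟨one_dvd _, hM0 i⟩)
    unfold cost
    have h2 : 0 ≤ ∑ g ∈ (M i).divisors, (g : ℝ) / M i * K (w.take i) g := by
      refine sum_nonneg fun g hg => ?_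
      have := hKpos w hw i hi g hg
      positivity
    positivity
  classical
  set T : Finset ℤ := (range k).image (fun t : ℕ => (t : ℤ)) with hT
  have hTc : T.card = k := by
    rw [hT, card_image_of_injective _ Nat.cast_injective, card_range]
  obtain ⟨t', ht', hmain⟩ := Pool.Agent.N269.PF.main Ω hΩ J (fun i w => w.take i)
    (by
      intro i w w' h
      have h1 := congrArg (List.take i) h
      simpa [List.take_take] using h1)
    (by intro w w'; simp)
    (by
      intro w hw w' hw' h
      rwa [List.take_of_length_le (hJ w hw).le, List.take_of_length_le (hJ w' hw').le] at h)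
    (fun i => (M i : ℤ)) (fun i => by exact_mod_cast hM0 i) lab T
    (by rw [hT]; exact (nonempty_range_iff.2 (by omega)).image _)
    (fun i w => cost k M K i (w.take i)) (fun i hi w hw => hcost w hw i hi)
    (fun i w w' h => by simp only [h])
    (by
      intro i hi w' hw'
      rw [hTc, ← hch w' hw' i hi]
      have h1 : ∀ u ∈ children Ω (w'.take i),
          ((T.filter fun t => (M i : ℤ) ∣ ((lab u).1 - (lab (w'.take (i + 1))).1) +
            t * ((lab u).2 - (lab (w'.take (i + 1))).2)).card : ℝ) ≤
          1 + ∑ g ∈ (M i).divisors, if (g : ℤ) ∣ (lab u).1 - (lab (w'.take (i + 1))).1 ∧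
            (g : ℤ) ∣ (lab u).2 - (lab (w'.take (i + 1))).2 then (k : ℝ) * g / M i else 0 := by
        intro u _
        refine le_trans ?_ (Pool.Agent.N269.PF.count_slopes k (M i) (hM0 i) _ _)
        rw [hT, filter_image, card_image_of_injective _ Nat.cast_injective]
      refine (sum_le_sum h1).trans ?_
      rw [sum_add_distrib, sum_comm, sum_const, nsmul_eq_mul, mul_one]
      unfold cost
      rw [mul_add, mul_div_cancel₀ _ hk0.ne', mul_sum]
      refine add_le_add ?_ (sum_le_sum fun g hg => ?_)
      · have h2 := hK w' hw' i hi 1 (Nat.mem_divisors.2 ⟨one_dvd _, hM0 i⟩) 0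
        simpa using h2
      · rw [← sum_filter, sum_const, nsmul_eq_mul]
        have h2 := hK w' hw' i hi g hg (lab (w'.take (i + 1)))
        have h3 : (0:ℝ) ≤ (k : ℝ) * g / M i := by positivity
        calc _ ≤ K (w'.take i) g * ((k : ℝ) * g / M i) := mul_le_mul_of_nonneg_right h2 h3
          _ = _ := by ring)
  rw [hT, mem_image] at ht'
  obtain ⟨t, ht, rfl⟩ := ht'
  rw [mem_range] at ht
  refine ⟨t, ht, ?_⟩
  -- the projection
  have hproj : (proj t (Ω.image (point M lab))).card = (Ω.image fun w =>
      ∑ i ∈ range J, (∏ l ∈ range i, (M l : ℤ)) *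
        ((lab (w.take (i + 1))).1 + (t : ℤ) * (lab (w.take (i + 1))).2)).card := by
    unfold proj
    rw [image_image]
    have h1 : (Ω.image fun w => (((∑ i ∈ range J, (∏ l ∈ range i, (M l : ℤ)) *
        ((lab (w.take (i + 1))).1 + (t : ℤ) * (lab (w.take (i + 1))).2) : ℤ)) : ℚ)) =
        Ω.image ((fun p : ℤ × ℤ => (p.1 : ℚ) + (t : ℚ) * (p.2 : ℚ)) ∘ point M lab) := by
      refine image_congr fun w hw => ?_
      simp only [Function.comp_apply]
      unfold point
      rw [hJ w hw, Prod.fst_sum, Prod.snd_sum]
      push_cast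
      rw [mul_sum, ← sum_add_distrib]
      refine sum_congr rfl fun i _ => ?_
      simp only [Prod.smul_fst, Prod.smul_snd, smul_eq_mul]
      push_cast
      ring
    have h2 : (Ω.image fun w => (((∑ i ∈ range J, (∏ l ∈ range i, (M l : ℤ)) *
        ((lab (w.take (i + 1))).1 + (t : ℤ) * (lab (w.take (i + 1))).2) : ℤ)) : ℚ)) =
        (Ω.image fun w => ∑ i ∈ range J, (∏ l ∈ range i, (M l : ℤ)) *
        ((lab (w.take (i + 1))).1 + (t : ℤ) * (lab (w.take (i + 1))).2)).image
          (fun z : ℤ => (z : ℚ)) := by
      rw [image_image]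
      rfl
    rw [← h1, h2, card_image_of_injective _ Int.cast_injective]
  rw [hproj]
  have hn : (0:ℝ) < Ω.card := by exact_mod_cast card_pos.2 hΩ
  set X : ℕ := (Ω.image fun w => ∑ i ∈ range J, (∏ l ∈ range i, (M l : ℤ)) *
        ((lab (w.take (i + 1))).1 + (t : ℤ) * (lab (w.take (i + 1))).2)).card with hX
  have hX0 : (0:ℝ) < X := by
    have : 0 < X := card_pos.2 (hΩ.image _)
    exact_mod_cast this
  have h1 : Real.log Ω.card ≤ (∑ w ∈ Ω, ∑ i ∈ range J, Real.log (cost k M K i (w.take i))) / Ω.card +
      Real.log X := by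
    rw [← sub_le_iff_le_add, le_div_iff₀ hn]
    linarith
  rw [← Real.exp_log hX0, ← Real.exp_add]
  calc (Ω.card : ℝ) = Real.exp (Real.log Ω.card) := (Real.exp_log hn).symm
    _ ≤ _ := Real.exp_le_exp.2 h1

end Pool.Agent.Results.MP_169869_co.LabelledTrees
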