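import Pool.Agent.N326.AK.Equiv

/-!
# MP_169869: the arithmetic Kakeya conjecture for regular sets and for sticky sets

For a finite set `A ⊆ ℤ × ℤ`, `Q ≥ 1` and `q = Q ^ j` let the *local energy* of `A` at `a ∈ A`
between the scales `q` and `Q q` be

  `energy Q q A a = 1 + 9 ∑_c 1 / |c - c(a)|`,

the sum over the cells `c ≠ c(a)` of side `q` which meet `A` and which are in the same cell of side
`Q q` as the cell `c(a)` of `a`.  If the number of the cells `c` with `|c - c(a)| ≤ D` is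
`O(D ^ s)` for `D ≤ Q`, the local energy is `O(Q ^ (s - 1) log Q)`, `s ≥ 1`.

1. For ALL finite `A`, all `Q` and `m` there is one slope `r = i / Q`, `0 ≤ i < Q`, with
   `|A| ≤ R G |π_r(A)|`, `R` the number of cells of side `Q ^ m` which meet `A`, `G` the geometric
   mean over `a ∈ A` of the product of the `m` local energies at `a`.
2. Hence the inequality of the conjecture, `|π_{-1}(A)| ≤ max_{r ∈ S} |π_r(A)| ^ (1 + ε)`, holds with
   one finite set `S = S(ε, K, b, C)` of slopes and one `η > 0` for all `s ∈ [1, 2]` and all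
   `A ⊆ [-N, N] ^ 2`, `N ≤ |A| ^ K`, of local (Assouad) dimension at most `s` (every
   cell of side `b ^ (j + t)` contains at most `C b ^ (t s)` cells of side `b ^ j` which
   meet `A`), if `|π_{-1}(A)| N ^ (s - 1 - η) ≤ |A|`: the fibres of `x - y` have at least
   `N ^ (s - 1 - η)` elements on the average.
3. In particular it holds, with `S = S(ε, K, b, C)`, for the `A` of local dimension at most `1 + η`,
   `η = η(ε, K, b, C) > 0`, without a condition for the fibres.  (The dimension of a set for which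
   the conjecture says something is at most one on the average over the scales, since one may assume
   that `x - y` determines the points of `A`.)
4. It holds, with `S = S(ε, s₀, b, C)`, for all (Ahlfors-David) REGULAR sets of all dimensions
   `s ∈ [s₀, 2]`: `A ⊆ [-N, N] ^ 2`, every cell of side `b ^ (j + t)` which meets `A` contains at
   least `C⁻¹ b ^ (t s)` (for `b ^ (j + t) ≤ N`) and at most `C b ^ (t s)` cells of side `b ^ j` which
   meet `A`.
5. It holds for all STICKY sets: given `x - y` to the precision `b ^ j`, `y` takes at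
   most `C` values to the same precision, for all `j`.
6. The conjecture itself is equivalent to the statement that in 5 the set `S` can be chosen
   independent of `K` and `C`, for the `A` with `|π_{-1}(A)| ≥ D₀(K, C)`.

Proof of 1.  For the index `i` let `N_j(a)` be the number of the cells `c` of side `Q ^ j` in the
cell of side `Q ^ (j + 1)` of `a` for which `Q c.1 + i c.2` differs by less than `2 Q` from the value
at the cell of `a`.  By induction from the largest scale on, the sum of `∏ 1 / N_j(a)` over the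
points `a ∈ A` with one value of `Q x + i y` is at most `R`.  The mean of `log N_j(a)` over
`0 ≤ i < Q` is at most the logarithm of the local energy (`log x ≤ x - 1` and Kaufman's energy
argument for one pair of cells), and Jensen's inequality gives the claim.
Proof of 6.  Powers of an arbitrary finite `A` with injective `x - y`, in a large base, are graphs of
Lipschitz functions of `x - y` with a constant which does not depend on the power.
-/

set_option autoImplicit false

open Finset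

namespace Pool.Agent.Results.MP_169869_co.LocalDimensionOne

/-- the projection `π_r(A) = {x + r y : (x, y) ∈ A}` -/
def proj (r : ℚ) (A : Finset (ℤ × ℤ)) : Finset ℚ :=
  A.image (fun p : ℤ × ℤ => (p.1 : ℚ) + r * (p.2 : ℚ))

/-- the projection `π_∞(A) = {y : (x, y) ∈ A}` -/
def projInf (A : Finset (ℤ × ℤ)) : Finset ℚ := A.image (fun p : ℤ × ℤ => (p.2 : ℚ))

/-- the largest size of a projection of `A` with slope `∞` or in `S` -/
def big (S : Finset ℚ) (A : Finset (ℤ × ℤ)) : ℕ :=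
  max (projInf A).card (S.sup fun r => (proj r A).card)

/-- the distance in the maximum norm -/
def dist (a b : ℤ × ℤ) : ℕ := max (b.1 - a.1).natAbs (b.2 - a.2).natAbs

/-- the cell `(⌊x / q⌋, ⌊y / q⌋)` of side `q` which contains the point `(x, y)` -/
def cell (q : ℤ) (p : ℤ × ℤ) : ℤ × ℤ := (p.1 / q, p.2 / q)

/-- the cells of side `q` which meet `A` -/
def cells (q : ℤ) (A : Finset (ℤ × ℤ)) : Finset (ℤ × ℤ) := A.image (cell q)

/-- the local energy of `A` at `a` between the scales `q` and `Q q` -/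
noncomputable def energy (Q : ℕ) (q : ℤ) (A : Finset (ℤ × ℤ)) (a : ℤ × ℤ) : ℝ :=
  1 + 9 * ∑ c ∈ (cells q A).filter (fun c => cell Q c = cell Q (cell q a) ∧ c ≠ cell q a),
    1 / (dist (cell q a) c : ℝ)

/-- every cell of side `b ^ t q` contains at most `C (b ^ t) ^ s` cells of side `q = b ^ j` which
meet `A` -/
def LocalDimLE (b : ℕ) (C s : ℝ) (A : Finset (ℤ × ℤ)) : Prop :=
  ∀ (j t : ℕ) (z : ℤ × ℤ), (((cells ((b : ℤ) ^ j) A).filter
    fun c => cell ((b : ℤ) ^ t) c = z).card : ℝ) ≤ C * ((b : ℝ) ^ t) ^ s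

/-- given `x - y` to the precision `b ^ j`, `y` takes at most `C` values to the same precision -/
def Sticky (b C : ℕ) (A : Finset (ℤ × ℤ)) : Prop :=
  ∀ (j : ℕ) (e : ℤ), ((A.filter fun p => (p.1 - p.2) / (b : ℤ) ^ j = e).image
    fun p => p.2 / (b : ℤ) ^ j).card ≤ C

/-- the inequality of the conjecture for the set `A` -/
def Ineq (S : Finset ℚ) (ε : ℝ) (A : Finset (ℤ × ℤ)) : Prop :=
  ((proj (-1) A).card : ℝ) ≤ (big S A : ℝ) ^ (1 + ε)

/-- `A ⊆ [-N, N] ^ 2` -/
def InBox (N : ℕ) (A : Finset (ℤ × ℤ)) : Prop := ∀ p ∈ A, |p.1| ≤ (N : ℤ) ∧ |p.2| ≤ (N : ℤ)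

/-- regular sets of dimension `s` in `[-N, N] ^ 2`: every cell of side `b ^ (j + t)` which meets `A`
contains at least `C⁻¹ (b ^ t) ^ s` (for `b ^ (j + t) ≤ N`) and at most `C (b ^ t) ^ s` cells of side
`b ^ j` which meet `A` -/
def Regular (b : ℕ) (C s : ℝ) (N : ℕ) (A : Finset (ℤ × ℤ)) : Prop :=
  InBox N A ∧ LocalDimLE b C s A ∧
    ∀ j t : ℕ, b ^ (j + t) ≤ N → ∀ z ∈ cells ((b : ℤ) ^ (j + t)) A,
      ((b : ℝ) ^ t) ^ s ≤ C * (((cells ((b : ℤ) ^ j) A).filter
        fun c => cell ((b : ℤ) ^ t) c = z).card : ℝ)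

theorem result :
    -- 1. the inequality for all finite sets
    (∀ (Q : ℕ), 0 < Q → ∀ (m : ℕ) (A : Finset (ℤ × ℤ)), A.Nonempty →
      ∃ i : ℕ, i < Q ∧ (A.card : ℝ) ≤ (cells ((Q : ℤ) ^ m) A).card *
        Real.exp ((∑ a ∈ A, ∑ j ∈ range m, Real.log (energy Q ((Q : ℤ) ^ j) A a)) / A.card) *
          (proj (i / Q) A).card) ∧
    -- 2. sets of local dimension at most `s`
    (∀ ε K : ℝ, 0 < ε → 0 < K → ∀ b : ℕ, 2 ≤ b → ∀ C : ℝ,
      ∃ (S : Finset ℚ) (η : ℝ), (-1 : ℚ) ∉ S ∧ 0 < η ∧ ∀ (A : Finset (ℤ × ℤ)) (N : ℕ) (s : ℝ),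
        InBox N A → (N : ℝ) ≤ (A.card : ℝ) ^ K → 1 ≤ s → s ≤ 2 → LocalDimLE b C s A →
        ((proj (-1) A).card : ℝ) * (N : ℝ) ^ (s - 1 - η) ≤ A.card → Ineq S ε A) ∧
    -- 3. sets of local dimension at most `1 + η`
    (∀ ε K : ℝ, 0 < ε → 0 < K → ∀ b : ℕ, 2 ≤ b → ∀ C : ℝ,
      ∃ (S : Finset ℚ) (η : ℝ), (-1 : ℚ) ∉ S ∧ 0 < η ∧ ∀ (A : Finset (ℤ × ℤ)) (N : ℕ),
        InBox N A → (N : ℝ) ≤ (A.card : ℝ) ^ K → LocalDimLE b C (1 + η) A → Ineq S ε A) ∧
    -- 4. regular sets
    (∀ ε s₀ : ℝ, 0 < ε → 0 < s₀ → ∀ b : ℕ, 2 ≤ b → ∀ C : ℝ,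
      ∃ S : Finset ℚ, (-1 : ℚ) ∉ S ∧ ∀ (A : Finset (ℤ × ℤ)) (N : ℕ) (s : ℝ), s₀ ≤ s → s ≤ 2 →
        Regular b C s N A → Ineq S ε A) ∧
    -- 5. sticky sets
    (∀ ε K : ℝ, 0 < ε → 0 < K → ∀ b C : ℕ, 2 ≤ b →
      ∃ S : Finset ℚ, (-1 : ℚ) ∉ S ∧ ∀ (A : Finset (ℤ × ℤ)) (N : ℕ),
        InBox N A → (N : ℝ) ≤ (A.card : ℝ) ^ K → Sticky b C A → Ineq S ε A) ∧
    -- 6. the conjecture is equivalent to the case of large sticky sets, with a set of slopes which
    -- does not depend on the constants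
    (∀ b : ℕ, 2 ≤ b →
      ((∀ ε : ℝ, 0 < ε → ∃ S : Finset ℚ, (-1 : ℚ) ∉ S ∧ ∀ A : Finset (ℤ × ℤ), Ineq S ε A) ↔
        ∀ ε : ℝ, 0 < ε → ∃ S : Finset ℚ, (-1 : ℚ) ∉ S ∧ ∀ (C : ℕ) (K : ℝ), 0 < K →
          ∃ D₀ : ℕ, ∀ (A : Finset (ℤ × ℤ)) (N : ℕ), InBox N A →
            (N : ℝ) ≤ ((proj (-1) A).card : ℝ) ^ K → Sticky b C A →
            D₀ ≤ (proj (-1) A).card → Ineq S ε A)) := by
  refine ⟨?_, ?_, ?_, ?_, ?_, ?_⟩
  · intro Q hQ m A hA
    exact Pool.Agent.N326.AK.universal' hQ m A hA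
  · intro ε K hε hK b hb C
    exact Pool.Agent.N326.AK.local_dim ε K hε hK b hb C
  · intro ε K hε hK b hb C
    exact Pool.Agent.N326.AK.local_one ε K hε hK b hb C
  · intro ε s₀ hε hs₀ b hb C
    exact Pool.Agent.N326.AK.regular ε s₀ hε hs₀ b hb C
  · intro ε K hε hK b C hb
    exact Pool.Agent.N326.AK.sticky ε K hε hK b C hb
  · intro b hb
    exact Pool.Agent.N326.AK.conj_iff_sticky b hb

end Pool.Agent.Results.MP_169869_co.LocalDimensionOne
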