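import Pool.Agent.N240.S.Proj

/-!
# MP_169869: the arithmetic Kakeya inequality for sumsets of the projections

For `A ⊆ ℤ × ℤ` arbitrary, the sizes of the projections `π_r(A)`, `r ∈ S ∪ {∞}`, are replaced by the
sizes of their `m`-fold sumsets. As `m → ∞` the best exponent in the inequality
`|π_{-1}(A)| ≤ (max_r |m π_r(A)|)^κ` tends to exactly `1 + 1/|S|`, for every set of slopes `S`. In
particular the inequality of the arithmetic Kakeya conjecture holds for all `A` if each `|π_r(A)|` is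
replaced by `|m π_r(A)|`, `m = m(ε)`.

Proof of the upper bound. Among the `2^i`-fold sumsets, `i ≤ I`, there is one `i` for which the
`2^i`-fold sumsets of all `|S| + 1` projections have small doubling, and they contain the projections
of the dilate `2^i A`, to which the theorem on sets with structured projections applies.
-/

set_option autoImplicit false

open Finset
open scoped Pointwise

namespace Pool.Agent.Results.MP_169869_co.SumsetsOfProjections

/-- the projection `π_r(A) = {x + r y : (x, y) ∈ A}` -/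
def proj (r : ℚ) (A : Finset (ℤ × ℤ)) : Finset ℚ :=
  A.image (fun p : ℤ × ℤ => (p.1 : ℚ) + r * (p.2 : ℚ))

/-- the projection `π_∞(A) = {y : (x, y) ∈ A}` -/
def projInf (A : Finset (ℤ × ℤ)) : Finset ℚ := A.image (fun p : ℤ × ℤ => (p.2 : ℚ))

/-- the `m`-fold sumset `P + ⋯ + P` -/
def sums : ℕ → Finset ℚ → Finset ℚ
  | 0, _ => {0}
  | m + 1, P => sums m P + P

/-- the largest size of the `m`-fold sumset of a projection of `A` with slope `∞` or in `S` -/
def bigSum (m : ℕ) (S : Finset ℚ) (A : Finset (ℤ × ℤ)) : ℕ :=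
  max (sums m (projInf A)).card (S.sup fun r => (sums m (proj r A)).card)

theorem sums_eq (m : ℕ) (P : Finset ℚ) : sums m P = Pool.Agent.N240.Proj.sums m P := by
  induction m with
  | zero => rfl
  | succ m ih =>
    change sums m P + P = Pool.Agent.N240.Proj.sums m P + P
    rw [ih]

theorem bigSum_eq (m : ℕ) (S : Finset ℚ) (A : Finset (ℤ × ℤ)) :
    bigSum m S A = Pool.Agent.N240.Proj.bigSum m S A := by
  unfold bigSum Pool.Agent.N240.Proj.bigSum
  simp only [sums_eq]
  rfl

theorem result :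
    -- for every set of slopes the exponent `1 + 1/|S| + ε` is admissible for some `m`
    (∀ S : Finset ℚ, (-1 : ℚ) ∉ S → S.Nonempty → ∀ ε : ℝ, 0 < ε → ∃ m : ℕ, 1 ≤ m ∧
      ∀ A : Finset (ℤ × ℤ),
        ((proj (-1) A).card : ℝ) ≤ (bigSum m S A : ℝ) ^ (1 + 1 / (S.card : ℝ) + ε)) ∧
    -- and no exponent below `1 + 1/|S|` is admissible, for any `m`
    (∀ S : Finset ℚ, (-1 : ℚ) ∉ S → S.Nonempty → ∀ (m : ℕ) (κ : ℝ),
      κ < 1 + 1 / (S.card : ℝ) → ∀ C : ℝ, ∃ A : Finset (ℤ × ℤ),
        C * (bigSum m S A : ℝ) ^ κ < ((proj (-1) A).card : ℝ)) ∧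
    -- the inequality of the conjecture for sumsets of the projections
    (∀ ε : ℝ, 0 < ε → ∃ (S : Finset ℚ) (m : ℕ), (-1 : ℚ) ∉ S ∧ 1 ≤ m ∧
      ∀ A : Finset (ℤ × ℤ), ((proj (-1) A).card : ℝ) ≤ (bigSum m S A : ℝ) ^ (1 + ε)) := by
  have h1 : ∀ S : Finset ℚ, (-1 : ℚ) ∉ S → S.Nonempty → ∀ ε : ℝ, 0 < ε → ∃ m : ℕ, 1 ≤ m ∧
      ∀ A : Finset (ℤ × ℤ),
        ((proj (-1) A).card : ℝ) ≤ (bigSum m S A : ℝ) ^ (1 + 1 / (S.card : ℝ) + ε) := by
    intro S hS hne ε hε
    obtain ⟨m, hm, h⟩ := Pool.Agent.N240.Proj.upper S hS hne ε hε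
    refine ⟨m, hm, fun A => ?_⟩
    rw [bigSum_eq]
    exact h A
  refine ⟨h1, ?_, ?_⟩
  · intro S hS hne m κ hκ C
    obtain ⟨A, hA⟩ := Pool.Agent.N240.Proj.lower S hS hne m κ hκ C
    refine ⟨A, ?_⟩
    rw [bigSum_eq]
    exact hA
  · intro ε hε
    obtain ⟨N, hN⟩ : ∃ N : ℕ, 2 / ε ≤ N := exists_nat_ge _
    set S : Finset ℚ := (Finset.range (N + 1)).image (fun j : ℕ => (j : ℚ)) with hSdef
    have hScard : S.card = N + 1 := by
      rw [hSdef, Finset.card_image_of_injective _ Nat.cast_injective, Finset.card_range]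
    have hS : (-1 : ℚ) ∉ S := by
      intro h
      obtain ⟨j, _, hj⟩ := Finset.mem_image.1 h
      have h0 : (0 : ℚ) ≤ (j : ℚ) := Nat.cast_nonneg _
      linarith
    have hne : S.Nonempty := by rw [← Finset.card_pos, hScard]; omega
    obtain ⟨m, hm, h⟩ := h1 S hS hne (ε / 2) (by positivity)
    refine ⟨S, m, hS, hm, fun A => ?_⟩
    rcases A.eq_empty_or_nonempty with rfl | hA
    · have : (proj (-1) (∅ : Finset (ℤ × ℤ))).card = 0 := rfl
      rw [this, Nat.cast_zero]
      positivity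
    refine (h A).trans (Real.rpow_le_rpow_of_exponent_le ?_ ?_)
    · have : 1 ≤ bigSum m S A := by
        rw [bigSum_eq]
        exact le_trans (Pool.Agent.N240.Proj.sums_nonempty (hA.image _) m).card_pos
          (le_max_left _ _)
      exact_mod_cast this
    · rw [hScard]
      push_cast
      have h2 : 1 / ((N : ℝ) + 1) ≤ ε / 2 := by
        rw [div_le_div_iff₀ (by positivity) (by norm_num)]
        rw [div_le_iff₀ hε] at hN
        nlinarith
      linarith

end Pool.Agent.Results.MP_169869_co.SumsetsOfProjections
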